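import Pool.Agent.helper21.OE.SpecA

/-!
# MP_2e0e07_nt, project OE: row TSU (`T_ℓ` preserves the modular symbols of level one)
-/

set_option autoImplicit false

namespace Pool.Agent.OE

open MvPolynomial Matrix

/-- the term of a matrix -/
noncomputable def TSU_T {d t : ℤ} {A : Type} [CommRing A] (f : Oz d t →+* A) (φ : Sy d t A)
    (M : Mat d t) : Sy d t A := fun u v => act f M.adjugate (φ (M *ᵥ u) (M *ᵥ v))

theorem TSU_tor (d t : ℤ) {ℓ : ℕ} (hℓ : ℓ ≠ 0) (z : Oz d t) (h : ((ℓ : ℕ) : Oz d t) * z = 0) :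
    z = 0 := by
  have h1 : ((ℓ : ℕ) : Oz d t) * z = (ℓ : ℕ) • z := by rw [nsmul_eq_mul]
  rw [h1] at h
  have hr := congrArg QuadraticAlgebra.re h
  have hi := congrArg QuadraticAlgebra.im h
  have hl : (ℓ : ℤ) ≠ 0 := by exact_mod_cast hℓ
  simp at hr hi
  ext
  · rcases hr with hr | hr
    · exact absurd hr hℓ
    · exact hr
  · rcases hi with hi | hi
    · exact absurd hi hℓ
    · exact hi

theorem TSU_det (d t : ℤ) (ℓ : ℕ) (g : Mat d t) :
    (al ℓ g).det = ((ℓ : ℕ) : Oz d t) * g.det := by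
  unfold al
  rw [Matrix.det_mul, Matrix.det_fin_two_of]
  ring

theorem TSU_ne (d t : ℤ) {ℓ : ℕ} (hℓ : ℓ ≠ 0) (g : GO d t) (u : Vec d t)
    (hu : u ≠ 0) : al ℓ g.val *ᵥ u ≠ 0 := by
  intro h
  apply hu
  have h1 : (al ℓ g.val).adjugate *ᵥ (al ℓ g.val *ᵥ u) = 0 := by
    rw [h, Matrix.mulVec_zero]
  rw [Matrix.mulVec_mulVec, Matrix.adjugate_mul, TSU_det, Matrix.smul_mulVec,
    Matrix.one_mulVec] at h1
  have hU : IsUnit g.val.det := (Matrix.isUnit_iff_isUnit_det g.val).1 ⟨g, rfl⟩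
  funext l
  have h2 : (((ℓ : ℕ) : Oz d t) * g.val.det) * u l = 0 := congrFun h1 l
  rw [mul_assoc] at h2
  have h3 := TSU_tor d t hℓ _ h2
  obtain ⟨w, hw⟩ := hU
  have h4 : ((w⁻¹ : (Oz d t)ˣ) : Oz d t) * (g.val.det * u l) = 0 := by rw [h3, mul_zero]
  rw [← hw, ← mul_assoc, Units.inv_mul, one_mul] at h4
  exact h4

theorem TSU_bi {A : Type} [CommRing A] (k : ℕ) {ι : Type} (s : Finset ι) (P : ι → Pol A)
    (h : ∀ i ∈ s, BiHom k (P i)) : BiHom k (∑ i ∈ s, P i) := by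
  constructor
  · exact Submodule.sum_mem (weightedHomogeneousSubmodule A (![1, 1, 0, 0] : Fin 4 → ℕ) k)
      fun i hi => (h i hi).1
  · exact Submodule.sum_mem (weightedHomogeneousSubmodule A (![0, 0, 1, 1] : Fin 4 → ℕ) k)
      fun i hi => (h i hi).2

theorem TSU (hTR1 : TR1_stmt) (hTR2 : TR2_stmt) (hPRG : PRG_stmt) (hCNJ : CNJ_stmt)
    (hACH : ACH_stmt) : TSU_stmt := by
  intro d t ht ℓ hℓ F hF A _ f k φ hφ
  have hℓ0 : ℓ ≠ 0 := hℓ.ne_zero
  have hs : ∀ u v, opT f ℓ F φ u v = ∑ g : F, TSU_T f φ (al ℓ g.val.val) u v := by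
    intro u v
    have h1 : opT f ℓ F φ u v = ∑ g ∈ F, TSU_T f φ (al ℓ g.val) u v := rfl
    rw [h1]
    exact (Finset.sum_coe_sort F fun g => TSU_T f φ (al ℓ g.val) u v).symm
  refine ⟨?_, ?_, ?_, ?_, ?_, ?_, ?_⟩
  · intro v
    rw [hs]
    refine Finset.sum_eq_zero fun i _ => ?_
    unfold TSU_T
    rw [Matrix.mulVec_zero, hφ.zero_left, map_zero]
  · intro u
    rw [hs]
    refine Finset.sum_eq_zero fun i _ => ?_
    unfold TSU_T
    rw [Matrix.mulVec_zero, hφ.zero_right, map_zero]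
  · intro u v w hu hv hw
    rw [hs, hs, hs, ← Finset.sum_add_distrib]
    refine Finset.sum_congr rfl fun i _ => ?_
    unfold TSU_T
    rw [← map_add, hφ.add _ _ _ (TSU_ne d t hℓ0 i.val u hu) (TSU_ne d t hℓ0 i.val v hv)
      (TSU_ne d t hℓ0 i.val w hw)]
  · intro c u v hc
    rw [hs, hs]
    refine Finset.sum_congr rfl fun i _ => ?_
    unfold TSU_T
    rw [Matrix.mulVec_smul, hφ.smul_left c _ _ hc]
  · intro c u v hc
    rw [hs, hs]
    refine Finset.sum_congr rfl fun i _ => ?_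
    unfold TSU_T
    rw [Matrix.mulVec_smul, hφ.smul_right c _ _ hc]
  · intro u v
    rw [hs]
    refine TSU_bi k _ _ fun i _ => ?_
    exact hACH f _ k _ (hφ.hom _ _)
  · intro γ u v _
    rw [one_smul, hs, hs, map_sum]
    obtain ⟨σ, hσ⟩ := hPRG d t ℓ F hF γ
    rw [← Equiv.sum_comp σ fun i : F => act f γ.val (TSU_T f φ (al ℓ i.val.val) u v)]
    refine Finset.sum_congr rfl fun i _ => ?_
    obtain ⟨h, hh, hg⟩ := hσ i
    obtain ⟨h', h1, -, -⟩ := hCNJ d t ℓ hℓ0 h hh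
    have hg' : i.val.val * γ.val = h.val * (σ i).val.val := by
      have h2 := congrArg Units.val hg
      rw [Units.val_mul, Units.val_mul] at h2
      exact h2
    have e1 : al ℓ i.val.val * γ.val = h'.val * al ℓ (σ i).val.val := by
      unfold al
      rw [Matrix.mul_assoc, hg', ← Matrix.mul_assoc, h1, Matrix.mul_assoc]
    have e2 := hTR2 d t ht f k (φ (al ℓ i.val.val *ᵥ (γ.val *ᵥ u)) (al ℓ i.val.val *ᵥ (γ.val *ᵥ v)))
      (hφ.hom _ _) (al ℓ i.val.val) γ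
    have e3 := hTR1 d t ht f k 1 (fun _ => 1) φ hφ (al ℓ (σ i).val.val) h'
      (by rw [Nat.cast_one]; exact one_dvd _) u v
    rw [one_smul] at e3
    unfold TSU_T
    rw [e2, Matrix.mulVec_mulVec, Matrix.mulVec_mulVec, e1, e3]

end Pool.Agent.OE
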